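import Mathlib

namespace Pool.Agent.Results.MP_4d240a_al.Counter

open Polynomial

/-- right McCoy ring -/
def RightMcCoy (S : Type) [Ring S] : Prop :=
  ∀ f g : S[X], f ≠ 0 → g ≠ 0 → f * g = 0 → ∃ s : S, s ≠ 0 ∧ f * C s = 0

/-- left McCoy ring -/
def LeftMcCoy (S : Type) [Ring S] : Prop :=
  ∀ f g : S[X], f ≠ 0 → g ≠ 0 → f * g = 0 → ∃ s : S, s ≠ 0 ∧ C s * g = 0

/-! The monoid with presentation `a a y = a`; the letter `a` is `true` and `y` is `false`. -/

def strip : List Bool → List Bool
  | true :: false :: w => strip w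
  | w => w

def act : Bool → List Bool → List Bool
  | true, w => true :: strip w
  | false, w => false :: w

def mul (u w : List Bool) : List Bool := u.foldr act w

lemma strip_idem (w : List Bool) : strip (strip w) = strip w := by
  induction w using strip.induct with
  | case1 w ih => rw [strip, ih]
  | case2 w h => rw [strip.eq_2 _ h, strip.eq_2 _ h]

lemma strip_mul (u w : List Bool) : strip (mul (strip u) w) = strip (mul u w) := by
  induction u using strip.induct with
  | case1 u ih =>
    rw [strip, ih]
    have : mul (true :: false :: u) w = true :: false :: mul u w := by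
      simp [mul, act, strip]
    rw [this, strip]
  | case2 u h => rw [strip.eq_2 _ h]

lemma act_mul (c : Bool) (u w : List Bool) : mul (act c u) w = act c (mul u w) := by
  cases c
  · rfl
  · show true :: strip (mul (strip u) w) = true :: strip (mul u w)
    rw [strip_mul]

lemma mul_assoc' (u v w : List Bool) : mul (mul u v) w = mul u (mul v w) := by
  induction u with
  | nil => rfl
  | cons c u ih =>
    show mul (act c (mul u v)) w = act c (mul u (mul v w))
    rw [act_mul, ih]

def Mo : Type := {w : List Bool // mul w [] = w}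

instance : DecidableEq Mo := inferInstanceAs (DecidableEq {w : List Bool // mul w [] = w})

instance : Monoid Mo where
  mul u v := ⟨mul u.1 v.1, by rw [mul_assoc', v.2]⟩
  one := ⟨[], rfl⟩
  mul_assoc u v w := Subtype.ext (mul_assoc' _ _ _)
  one_mul _ := rfl
  mul_one u := Subtype.ext u.2

lemma mul_val (u v : Mo) : (u * v).1 = mul u.1 v.1 := rfl

def ev (u : List Bool) : Mo := ⟨mul u [], by rw [mul_assoc']; rfl⟩

def L (c : Bool) : Mo := ⟨[c], by cases c <;> rfl⟩

lemma ev_cons (c : Bool) (u : List Bool) : ev (c :: u) = L c * ev u := rfl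

lemma ev_val (w : Mo) : ev w.1 = w := Subtype.ext w.2

lemma rel : L true * L true * L false = L true := by decide

lemma lt_act (c : Bool) (w : List Bool) : w.reverse < (act c w).reverse := by
  cases c
  · simp only [act, List.reverse_cons]
    have := List.append_left_lt (l₁ := w.reverse) (l₂ := []) (l₃ := [false]) (by decide)
    simpa using this
  · have h : ∃ r, w.reverse = (strip w).reverse ++ r ∧ (r = [] ∨ ∃ r', r = false :: r') := by
      induction w using strip.induct with
      | case1 w ih =>
        obtain ⟨r, h1, h2⟩ := ih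
        refine ⟨r ++ [false, true], by rw [strip]; simp [h1], Or.inr ?_⟩
        rcases h2 with rfl | ⟨r', rfl⟩
        · exact ⟨_, rfl⟩
        · exact ⟨_, rfl⟩
      | case2 w h => exact ⟨[], by rw [strip.eq_2 _ h]; simp, Or.inl rfl⟩
    obtain ⟨r, h1, h2⟩ := h
    simp only [act, List.reverse_cons]
    rw [h1]
    apply List.append_left_lt
    rcases h2 with rfl | ⟨r', rfl⟩
    · decide
    · exact List.Lex.rel (by decide)

lemma le_mul (u w : List Bool) : w.reverse ≤ (mul u w).reverse := by
  induction u with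
  | nil => exact le_rfl
  | cons c u ih => exact ih.trans (lt_act c _).le

lemma lt_mul (s w : Mo) (hs : s ≠ 1) : w.1.reverse < (s * w).1.reverse := by
  obtain ⟨u, hu⟩ := s
  cases u with
  | nil => exact absurd rfl hs
  | cons c u => exact (le_mul u _).trans_lt (lt_act c _)

lemma mul_eq_one' (s w : Mo) : s * w = 1 ↔ s = 1 ∧ w = 1 := by
  refine ⟨fun h => ?_, fun h => by rw [h.1, h.2, mul_one]⟩
  by_cases hs : s = 1
  · exact ⟨hs, by simpa [hs] using h⟩
  · have := lt_mul s w hs
    rw [h] at this
    exact absurd this (List.not_lt_nil _)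

abbrev R : Type := MonoidAlgebra ℤ Mo

open MonoidAlgebra

/-- coefficient of the identity -/
noncomputable def chi : R →ₐ[ℤ] ℤ := MonoidAlgebra.lift ℤ ℤ Mo
  { toFun := fun w => if w = 1 then 1 else 0
    map_one' := by simp
    map_mul' := fun u v => by
      simp only [mul_eq_one']
      by_cases h1 : u = 1 <;> by_cases h2 : v = 1 <;> simp [h1, h2] }

/-- augmentation -/
noncomputable def eps : R →ₐ[ℤ] ℤ := MonoidAlgebra.lift ℤ ℤ Mo 1

lemma claimA (f g : R) (hf : chi f ≠ 0) (h : f * g = 0) : g = 0 := by
  by_contra hg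
  have hne : g.coeff.support.Nonempty := by
    rw [Finsupp.support_nonempty_iff]; simpa using hg
  obtain ⟨w, hw, hmin⟩ := g.coeff.support.exists_min_image (fun w => w.1.reverse) hne
  have key : ∀ f : R, (f * g).coeff w = chi f * g.coeff w := by
    intro f
    induction f using MonoidAlgebra.induction_linear with
    | zero => simp
    | add a b ha hb => rw [add_mul, MonoidAlgebra.coeff_add, Finsupp.add_apply, ha, hb, map_add, add_mul]
    | single s r =>
      by_cases hs : s = 1
      · subst hs
        rw [coeff_single_one_mul]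
        simp [chi]
      · have : w ∉ (single s r * g).coeff.support := fun hh => by
          obtain ⟨w', h1, h2⟩ := Finset.mem_image.1 (support_coeff_single_mul_subset g r s hh)
          have := lt_mul s w' hs
          rw [h2] at this
          exact absurd (hmin w' h1) (not_le.2 this)
        rw [Finsupp.notMem_support_iff.1 this]
        simp [chi, hs]
  have := key f
  rw [h] at this
  simp only [MonoidAlgebra.coeff_zero, Finsupp.coe_zero, Pi.zero_apply] at this
  rcases mul_eq_zero.1 this.symm with h1 | h1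
  · exact hf h1
  · exact Finsupp.mem_support_iff.1 hw h1

def dg (u : List Bool) : ℤ := (u.count true : ℤ) - u.count false

lemma dg_strip (u : List Bool) : dg (strip u) = dg u := by
  induction u using strip.induct with
  | case1 u ih => rw [strip, ih]; simp [dg]
  | case2 u h => rw [strip.eq_2 _ h]

lemma dg_mul (u w : List Bool) : dg (mul u w) = dg u + dg w := by
  induction u with
  | nil => simp [mul, dg]
  | cons c u ih =>
    cases c
    · show dg (false :: mul u w) = _
      simp only [dg] at *
      simp at *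
      omega
    · show dg (true :: strip (mul u w)) = _
      have := dg_strip (mul u w)
      simp only [dg] at *
      simp at *
      omega

def deg : Mo →* Multiplicative ℤ where
  toFun w := Multiplicative.ofAdd (dg w.1)
  map_one' := rfl
  map_mul' u v := by rw [mul_val, dg_mul]; rfl

lemma pow_ev (u : List Bool) : ∀ N : ℕ, u.length < N →
    L true ^ N * ev u = L true ^ ((N : ℤ) + dg u).toNat := by
  induction u with
  | nil => intro N _; simp [dg]; exact mul_one _
  | cons c u ih =>
    intro N hN
    rw [ev_cons, ← mul_assoc]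
    simp only [List.length_cons] at hN
    cases c
    · obtain ⟨M, rfl⟩ : ∃ M, N = M + 2 := ⟨N - 2, by omega⟩
      have : L true ^ (M + 2) * L false = L true ^ (M + 1) := by
        rw [pow_succ, pow_succ, mul_assoc, mul_assoc, ← mul_assoc (L true), rel]
      rw [this, ih _ (by omega)]
      congr 2
      simp [dg]; ring
    · rw [← pow_succ, ih _ (by omega)]
      congr 2
      simp [dg]; ring

/-- span of the monoid elements of weight less than `n` -/
noncomputable def T (m : Mo → ℕ) (n : ℕ) : Submodule ℤ R := Submodule.span ℤ (of ℤ Mo '' {w | m w < n})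

lemma exT (m : Mo → ℕ) (f : R) : ∃ n, f ∈ T m n := by
  refine ⟨f.coeff.support.sup m + 1, Submodule.span_mono ?_ (mem_span_support_coeff f)⟩
  apply Set.image_mono
  intro w hw
  exact Nat.lt_succ_of_le (Finset.le_sup (f := m) hw)

noncomputable def A : R := of ℤ Mo (L true)
noncomputable def Y : R := of ℤ Mo (L false)

lemma relR : A * A * Y = A := by rw [A, Y, ← map_mul, ← map_mul, rel]

lemma kill (f g : R) (hg : eps g ≠ 0) (h : f * g = 0) : ∃ N, A ^ N * f = 0 := by
  let φ : R →ₐ[ℤ] MonoidAlgebra ℤ (Multiplicative ℤ) := mapDomainAlgHom ℤ ℤ deg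
  have hφ : φ g ≠ 0 := by
    intro h0
    apply hg
    have : eps = (MonoidAlgebra.lift ℤ ℤ (Multiplicative ℤ) 1).comp φ := by
      ext w; simp [eps, φ]
    rw [this, AlgHom.comp_apply, h0, map_zero]
  have hf : φ f = 0 := by
    have := congrArg φ h
    rw [map_mul, map_zero] at this
    exact (mul_eq_zero.1 this).resolve_right hφ
  obtain ⟨N, hN⟩ := exT (fun w => w.1.length) f
  refine ⟨N, ?_⟩
  have key : ∀ f ∈ T (fun w => w.1.length) N, A ^ N * f =
      mapDomainLinearMap ℤ ℤ (fun k : Multiplicative ℤ => L true ^ ((N : ℤ) + k.toAdd).toNat) (φ f) := by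
    intro f hf
    induction hf using Submodule.span_induction with
    | mem x hx =>
      obtain ⟨w, hw, rfl⟩ := hx
      rw [A, ← map_pow, ← map_mul]
      have := pow_ev w.1 N hw
      rw [ev_val] at this
      rw [this]
      simp [φ, deg]
      try rfl
    | zero => simp
    | add x y _ _ hx hy => rw [mul_add, hx, hy, map_add, map_add]
    | smul c x _ hx => rw [mul_smul_comm, hx, map_smul, map_smul]
  rw [key f hN, hf, map_zero]

def d (w : Mo) : ℕ := w.1.count false

lemma count_strip (u : List Bool) : (strip u).count false ≤ u.count false := by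
  induction u using strip.induct with
  | case1 u ih => rw [strip]; simp; omega
  | case2 u h => rw [strip.eq_2 _ h]

lemma d_ev (u : List Bool) : d (ev u) ≤ u.count false := by
  induction u with
  | nil => exact le_rfl
  | cons c u ih =>
    cases c
    · show (false :: (ev u).1).count false ≤ _
      simp only [d] at ih
      simp; omega
    · show (true :: strip (ev u).1).count false ≤ _
      have := count_strip (ev u).1
      simp only [d] at ih
      simp; omega

lemma A_mul_T (n : ℕ) (f : R) (hf : f ∈ T d n) : A * f ∈ T d n := by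
  induction hf using Submodule.span_induction with
  | mem x hx =>
    obtain ⟨w, hw, rfl⟩ := hx
    rw [A, ← map_mul]
    refine Submodule.subset_span ⟨_, ?_, rfl⟩
    show (true :: strip w.1).count false < n
    have := count_strip w.1
    simp only [Set.mem_ofPred_eq, d] at hw
    simp; omega
  | zero => simp
  | add x y _ _ hx hy => rw [mul_add]; exact add_mem hx hy
  | smul c x _ hx => rw [mul_smul_comm]; exact Submodule.smul_mem _ _ hx

lemma strip_ev (u : List Bool) : ∀ n, u.count false < n + 1 →
    ∃ f ∈ T d n, of ℤ Mo (ev u) = of ℤ Mo (ev (strip u)) + (1 - A * Y) * f := by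
  induction u using strip.induct with
  | case1 u ih =>
    intro n hn
    simp at hn
    obtain ⟨f, h1, h2⟩ := ih n (by omega)
    refine ⟨f - of ℤ Mo (ev u), sub_mem h1 (Submodule.subset_span ⟨_, ?_, rfl⟩), ?_⟩
    · exact lt_of_le_of_lt (d_ev u) hn
    · rw [strip, ev_cons, ev_cons, map_mul, map_mul, ← A, ← Y, mul_sub, ← add_sub_assoc, ← h2]
      noncomm_ring
  | case2 u h => intro n _; exact ⟨0, zero_mem _, by rw [strip.eq_2 _ h]; simp⟩

lemma keyK (n : ℕ) (h : R) (hh : h ∈ T d (n + 1)) : ∃ f ∈ T d n,
    h = mapDomainLinearMap ℤ ℤ (fun w : Mo => ev w.1.tail) (A * h) + (1 - A * Y) * f := by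
  induction hh using Submodule.span_induction with
  | mem x hx =>
    obtain ⟨w, hw, rfl⟩ := hx
    obtain ⟨f, h1, h2⟩ := strip_ev w.1 n hw
    refine ⟨f, h1, ?_⟩
    rw [ev_val] at h2
    have : mapDomainLinearMap ℤ ℤ (fun w : Mo => ev w.1.tail) (A * of ℤ Mo w) =
        of ℤ Mo (ev (strip w.1)) := by
      rw [A, ← map_mul]
      simp
      rfl
    rw [this]
    exact h2
  | zero => exact ⟨0, zero_mem _, by simp⟩
  | add x y _ _ hx hy =>
    obtain ⟨f, h1, h2⟩ := hx
    obtain ⟨g, h3, h4⟩ := hy
    refine ⟨f + g, add_mem h1 h3, ?_⟩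
    rw [mul_add, map_add, mul_add, add_add_add_comm, ← h2, ← h4]
  | smul c x _ hx =>
    obtain ⟨f, h1, h2⟩ := hx
    refine ⟨c • f, Submodule.smul_mem _ _ h1, ?_⟩
    rw [mul_smul_comm, map_smul, mul_smul_comm, ← smul_add, ← h2]

lemma claimB (f g : R) (hg : eps g ≠ 0) (h : f * g = 0) : f = 0 := by
  obtain ⟨n, hn⟩ := exT d f
  induction n generalizing f with
  | zero => simpa [T] using hn
  | succ n ih =>
    obtain ⟨N, hN⟩ := kill f g hg h
    induction N generalizing f with
    | zero => simpa using hN
    | succ N ihN =>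
      have h0 : A * f = 0 :=
        ihN (A * f) (by rw [mul_assoc, h, mul_zero]) (A_mul_T _ _ hn) (by rw [← mul_assoc, ← pow_succ, hN])
      obtain ⟨f1, h1, h2⟩ := keyK n f hn
      rw [h0, map_zero, zero_add] at h2
      have hb : chi (1 - A * Y) ≠ 0 := by
        have : L true ≠ 1 := by decide
        simp [chi, A, this]
      have h3 : f1 * g = 0 := claimA _ _ hb (by rw [← mul_assoc, ← h2, h])
      rw [h2, ih f1 h3 h1, mul_zero]

lemma notleft (z : R) : A ≠ z * (A * A) := by
  intro h
  have h1 : A * A * (Y * A - 1) = 0 := by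
    rw [mul_sub, ← mul_assoc, relR]; simp
  have h2 : A * (Y * A - 1) = 0 := by
    calc A * (Y * A - 1) = z * (A * A) * (Y * A - 1) := by rw [← h]
      _ = 0 := by rw [mul_assoc, h1, mul_zero]
  rw [mul_sub, mul_one, sub_eq_zero, A, Y, ← map_mul, ← map_mul] at h2
  exact absurd (of_injective h2) (by decide)

/-- the bimodule `ℤ` with left action through `chi` and right action through `eps` -/
def Bm : Type := ℤ

instance : AddCommGroup Bm := inferInstanceAs (AddCommGroup ℤ)

noncomputable instance : Module R Bm := Module.compHom ℤ chi.toRingHom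

noncomputable instance : Module Rᵐᵒᵖ Bm :=
  Module.compHom ℤ (eps.toRingHom.fromOpposite fun _ _ => Commute.all _ _)

instance : SMulCommClass R Rᵐᵒᵖ Bm where
  smul_comm r s m := mul_left_comm (chi r) (eps s.unop) m

abbrev S : Type := TrivSqZeroExt R Bm

def sn (x : S) : ℤ := x.snd

lemma sn_mul (x y : S) : sn (x * y) = chi x.fst * sn y + eps y.fst * sn x := rfl

lemma S_ext {x : S} (h1 : x.fst = 0) (h2 : sn x = 0) : x = 0 := TrivSqZeroExt.ext h1 h2

lemma SA (f g : S) (hf : chi f.fst ≠ 0) (h : f * g = 0) : g = 0 := by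
  have h1 : g.fst = 0 := claimA _ _ hf (by rw [← TrivSqZeroExt.fst_mul, h]; rfl)
  have h2 := sn_mul f g
  rw [h, h1, map_zero, zero_mul, add_zero] at h2
  exact S_ext h1 ((mul_eq_zero.1 h2.symm).resolve_left hf)

lemma SB (f g : S) (hg : eps g.fst ≠ 0) (h : f * g = 0) : f = 0 := by
  have h1 : f.fst = 0 := claimB _ _ hg (by rw [← TrivSqZeroExt.fst_mul, h]; rfl)
  have h2 := sn_mul f g
  rw [h, h1, map_zero, zero_mul, zero_add] at h2
  exact S_ext h1 ((mul_eq_zero.1 h2.symm).resolve_left hg)

lemma sep (x : S) (hx : x ≠ 0) : ∃ l : S →+ ℤ, l x ≠ 0 := by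
  by_cases h1 : x.fst = 0
  · exact ⟨{ toFun := sn, map_zero' := rfl, map_add' := fun _ _ => rfl }, fun h => hx (S_ext h1 h)⟩
  · have hne : x.fst.coeff.support.Nonempty := by
      rw [Finsupp.support_nonempty_iff]; simpa using h1
    obtain ⟨w, hw⟩ := hne
    exact ⟨{ toFun := fun y => y.fst.coeff w, map_zero' := rfl, map_add' := fun _ _ => rfl },
      Finsupp.mem_support_iff.1 hw⟩

lemma fin_roots (l : S →+ ℤ) (p : S[X]) (i : ℕ) (h : l (p.coeff i) ≠ 0) :
    {n : ℕ | l (p.eval (n : S)) = 0}.Finite := by
  let P : ℤ[X] := ∑ j ∈ p.support, monomial j (l (p.coeff j))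
  have hP : P ≠ 0 := by
    intro h0
    have := congrArg (fun q => q.coeff i) h0
    simp only [P, finsetSum_coeff, coeff_monomial, Finset.sum_ite_eq', Polynomial.coeff_zero] at this
    rw [if_pos] at this
    · exact h this
    · rw [Polynomial.mem_support_iff]
      intro h1
      rw [h1, map_zero] at h
      exact h rfl
  have he : ∀ n : ℕ, l (p.eval (n : S)) = P.eval (n : ℤ) := by
    intro n
    rw [eval_eq_sum, Polynomial.sum, map_sum]
    simp only [P, eval_finsetSum, eval_monomial]
    refine Finset.sum_congr rfl fun j _ => ?_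
    rw [← Nat.cast_pow, ← Nat.cast_pow, ← nsmul_eq_mul', map_nsmul, nsmul_eq_mul']
  refine (Set.Finite.preimage (f := fun n : ℕ => (n : ℤ)) Nat.cast_injective.injOn
    (P.roots.toFinset.finite_toSet)).subset ?_
  intro n hn
  simp only [Set.mem_ofPred_eq, he] at hn
  simp [hP, hn]

lemma common (l l' : S →+ ℤ) (f g : S[X]) (i j : ℕ) (h1 : l (f.coeff i) ≠ 0)
    (h2 : l' (g.coeff j) ≠ 0) (h : f * g = 0) :
    ∃ x y : S, x * y = 0 ∧ l x ≠ 0 ∧ l' y ≠ 0 := by
  obtain ⟨n, hn⟩ := ((fin_roots l f i h1).union (fin_roots l' g j h2)).exists_notMem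
  simp only [Set.mem_union, Set.mem_ofPred_eq, not_or] at hn
  refine ⟨_, _, ?_, hn.1, hn.2⟩
  have := eval₂_mul_noncomm (p := f) (q := g) (RingHom.id S) (n : S)
    (fun k => (Nat.cast_commute n _).symm)
  rw [h, eval₂_zero] at this
  exact this.symm

theorem result : ∃ (S : Type) (_ : Ring S), RightMcCoy S ∧ LeftMcCoy S ∧
    ∃ a y : S, a = a ^ 2 * y ∧ ∀ z : S, a ≠ z * a ^ 2 := by
  have s0 : (TrivSqZeroExt.inr (1 : ℤ) : S) ≠ 0 := fun h => by
    have : (1 : ℤ) = 0 := congrArg sn h
    exact one_ne_zero this
  have s1 : (TrivSqZeroExt.inr (1 : ℤ) : S).fst = 0 := rfl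
  refine ⟨S, inferInstance, ?_, ?_, TrivSqZeroExt.inl A, TrivSqZeroExt.inl Y, ?_, ?_⟩
  · intro f g _ hg h
    refine ⟨_, s0, ?_⟩
    ext1 i
    rw [coeff_mul_C, Polynomial.coeff_zero]
    by_cases h1 : chi (f.coeff i).fst = 0
    · refine S_ext (by rw [TrivSqZeroExt.fst_mul, s1]; simp) ?_
      rw [sn_mul, h1, s1]
      simp
    · exfalso
      obtain ⟨j, hj⟩ : ∃ j, g.coeff j ≠ 0 := by
        by_contra hh
        push Not at hh
        exact hg (Polynomial.ext hh)
      obtain ⟨l', hl'⟩ := sep _ hj
      obtain ⟨x, y, a, b, c⟩ := common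
        { toFun := fun x => chi x.fst, map_zero' := by simp, map_add' := by simp } l' f g i j h1 hl' h
      rw [SA x y b a, map_zero] at c
      exact c rfl
  · intro f g hf _ h
    refine ⟨_, s0, ?_⟩
    ext1 j
    rw [coeff_C_mul, Polynomial.coeff_zero]
    by_cases h1 : eps (g.coeff j).fst = 0
    · refine S_ext (by rw [TrivSqZeroExt.fst_mul, s1]; simp) ?_
      rw [sn_mul, h1, s1]
      simp
    · exfalso
      obtain ⟨i, hi⟩ : ∃ i, f.coeff i ≠ 0 := by
        by_contra hh
        push Not at hh
        exact hf (Polynomial.ext hh)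
      obtain ⟨l, hl⟩ := sep _ hi
      obtain ⟨x, y, a, b, c⟩ := common l
        { toFun := fun x => eps x.fst, map_zero' := by simp, map_add' := by simp } f g i j hl h1 h
      rw [SB x y c a, map_zero] at b
      exact b rfl
  · rw [sq, ← TrivSqZeroExt.inl_mul, ← TrivSqZeroExt.inl_mul, relR]
  · intro z h
    have := congrArg TrivSqZeroExt.fst h
    simp only [sq, TrivSqZeroExt.fst_mul, TrivSqZeroExt.fst_inl] at this
    exact notleft _ this

end Pool.Agent.Results.MP_4d240a_al.Counter
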